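import Pool.Agent.Results.MP_32c55d_nt.CyclotomicAnalyticRank
import Pool.Agent.Y18.NF.Eu
import Pool.Agent.K7.H52.AR.Tot2
import Pool.Agent.K7.H52.AR.Roh

/-!
# The order of vanishing of `L(E/K, s)` at `s = 1` over all abelian number fields `K`
-/

set_option autoImplicit false

open Complex NumberField IsDedekindDomain UpperHalfPlane MatrixGroups CongruenceSubgroup

namespace Pool.Agent.Results.MP_32c55d_nt.AbelianFields

open Pool.Agent.Results.MP_32c55d_nt.CyclotomicAnalyticRank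
open Pool.Agent.K7.H52.AR (totF)

/-- `Z` is the Hasse-Weil `L`-function of `E : y² = x³ + a x + b` over the number field `F`: an entire
function, not identically zero, which for `Re s > 3/2` is the Euler product over all the primes `v` of
`F` of the local factors of `E` (`factor` of the file `CyclotomicAnalyticRank`). -/
def IsHasseWeil (a b : ℤ) {N : ℕ} (f : CuspForm (Gamma0 N : Subgroup (GL (Fin 2) ℝ)) 2)
    (F : Type) [Field F] [NumberField F] (Z : ℂ → ℂ) : Prop :=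
  Differentiable ℂ Z ∧ analyticOrderAt Z 1 ≠ ⊤ ∧
    ∀ s : ℂ, 3 / 2 < s.re → HasProd (fun v : HeightOneSpectrum (𝓞 F) => factor a b f s v) (Z s)

/-- the function is unique -/
theorem unique {a b : ℤ} {N : ℕ} {f : CuspForm (Gamma0 N : Subgroup (GL (Fin 2) ℝ)) 2}
    {F : Type} [Field F] [NumberField F] {Z Z' : ℂ → ℂ} (h : IsHasseWeil a b f F Z)
    (h' : IsHasseWeil a b f F Z') : Z = Z' := by
  have hA : AnalyticOnNhd ℂ Z Set.univ := fun z _ => h.1.analyticAt z
  have hA' : AnalyticOnNhd ℂ Z' Set.univ := fun z _ => h'.1.analyticAt z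
  have hev : Z =ᶠ[nhds (2 : ℂ)] Z' := by
    have ho : IsOpen {s : ℂ | 3 / 2 < s.re} := isOpen_lt continuous_const Complex.continuous_re
    filter_upwards [ho.mem_nhds (show (2 : ℂ) ∈ {s : ℂ | 3 / 2 < s.re} by
      show (3 / 2 : ℝ) < (2 : ℂ).re
      norm_num)] with s hs
    exact (h.2.2 s hs).unique (h'.2.2 s hs)
  have := hA.eqOn_of_preconnected_of_eventuallyEq hA' isPreconnected_univ (Set.mem_univ (2 : ℂ)) hev
  funext z
  exact this (Set.mem_univ z)

/-- The structure of the functions. -/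
theorem core (a b : ℤ) (hE : 4 * a ^ 3 + 27 * b ^ 2 ≠ 0) (N : ℕ) [NeZero N]
    (f : CuspForm (Gamma0 N : Subgroup (GL (Fin 2) ℝ)) 2) (hf : IsFormOf a b N f) :
    ∃ (K : ℝ) (G : (q : ℕ) → DirichletCharacter ℂ q → ℕ), Pool.Agent.TH940.GH N K G ∧
      ∀ (n : ℕ) [NeZero n], Nat.Coprime n N → ∀ (L : Type) [Field L] [NumberField L]
        [IsCyclotomicExtension {n} ℚ L] (F : IntermediateField ℚ L),
        ∃ Z : ℂ → ℂ, IsHasseWeil a b f F Z ∧ analyticOrderNatAt Z 1 = totF G n L F := by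
  classical
  obtain ⟨w, hw, hfr⟩ := hf.fricke
  obtain ⟨ω₁, ω₂, hω, hper⟩ := hf.periods
  have hN0 : (0 : ℝ) ≤ (N : ℝ) := Nat.cast_nonneg N
  have hsq : ((Real.sqrt N : ℝ) : ℂ) ^ 2 = (N : ℂ) := by
    have h1 : (Real.sqrt N) ^ 2 = (N : ℝ) := Real.sq_sqrt hN0
    exact_mod_cast congrArg (fun x : ℝ => (x : ℂ)) h1
  have hf' : W388.IsNewf N 2 f w := by
    refine ⟨hf.one, hf.real, hf.mul, ?_, hw, ?_⟩
    · intro p j hp
      have h1 := hf.pow p j hp
      unfold coef at h1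
      rw [h1]
      norm_num
    · intro τ τ' h
      rw [hfr τ τ' h]
      congr 1
      have hI : Complex.I ^ 2 = -1 := Complex.I_sq
      have : (((Real.sqrt N : ℝ) : ℂ) * (τ : ℂ) / Complex.I) ^ (2 : ℤ) = -((N : ℂ) * (τ : ℂ) ^ 2) := by
        rw [zpow_ofNat, div_pow, mul_pow, hsq, hI]
        ring
      rw [this]
      ring
  have hreal : ∀ n, coef f n = (((coef f n).re : ℝ) : ℂ) := by
    intro n
    apply Complex.ext
    · simp
    · simp [hf.real n]
  have hcoef : Pool.Agent.W192.CY.Coef N (Pool.Agent.TH940.cr f) := by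
    have hre : ∀ n, coef f n = ((Pool.Agent.TH940.cr f n : ℝ) : ℂ) := hreal
    have hnorm : ∀ n, |Pool.Agent.TH940.cr f n| = ‖coef f n‖ := by
      intro n
      rw [hre n, Complex.norm_real, Real.norm_eq_abs]
    refine ⟨?_, ?_, ?_, ?_, ?_, ?_⟩
    · unfold Pool.Agent.TH940.cr
      rw [W388.coeff_zero f]; simp
    · have h := hf.one
      rw [hre 1] at h
      exact_mod_cast h
    · intro m n hmn
      have h := hf.mul m n hmn
      rw [hre, hre m, hre n] at h
      exact_mod_cast h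
    · intro p j hp
      have h := hf.pow p j hp
      rw [hre, hre p, hre (p ^ (j + 1)), hre (p ^ j)] at h
      split_ifs at h ⊢ with hpN
      · rw [sub_zero] at h ⊢
        exact_mod_cast h
      · exact_mod_cast h
    · intro p hp hpN
      rw [hnorm]
      exact hf.good p hp hpN
    · intro p hp hpN
      rw [hnorm]
      exact hf.bad p hp hpN
  have hΛ : Pool.Agent.TH940.Pers f (Pool.Agent.TH940.lat ω₁ ω₂) := by
    intro γ hγ
    obtain ⟨m, n, h⟩ := hper γ hγ
    exact ⟨m * ω₁ + n * ω₂, ⟨m, n, rfl⟩, h⟩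
  obtain ⟨K, L, hK, hL, hnv⟩ := Pool.Agent.TH940.pack hf' hcoef hω hΛ
  have H : ∀ p : ℕ, p.Prime → ¬ (p : ℤ) ∣ 2 * (4 * a ^ 3 + 27 * b ^ 2) →
      ¬ p ∣ N ∧ coef f p = ((W165.CE.ap0 a b p : ℤ) : ℂ) := fun p hp h => hf.points p hp h
  -- orders
  have han : ∀ (q : ℕ) (χ : DirichletCharacter ℂ q), 1 ≤ q → Nat.Coprime q N → χ.IsPrimitive →
      ∀ s : ℂ, AnalyticAt ℂ (L q χ) s := fun q χ h1 h2 h3 s => (hL q χ h1 h2 h3).1.analyticAt s
  have htop : ∀ (q : ℕ) (χ : DirichletCharacter ℂ q), 1 ≤ q → Nat.Coprime q N → χ.IsPrimitive →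
      ∀ s : ℂ, analyticOrderAt (L q χ) s ≠ ⊤ := by
    intro q χ h1 h2 h3 s
    exact H370.Loc.order_ne_top (K := Set.univ) isPreconnected_univ (fun z _ => han q χ h1 h2 h3 z)
      (Set.mem_univ _) (hL q χ h1 h2 h3).2.2.1 (Set.mem_univ s)
  set G : (q : ℕ) → DirichletCharacter ℂ q → ℕ := fun q χ => analyticOrderNatAt (L q χ) (1 / 2)
    with hG
  have hGH : Pool.Agent.TH940.GH N K G := by
    refine ⟨hK, fun q χ h1 h2 h3 => (hL q χ h1 h2 h3).2.2.2, fun δ hδ => ?_⟩
    obtain ⟨q0, hq0⟩ := hnv δ hδ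
    refine ⟨q0, fun q h1 h2 h3 χ h4 h5 => ?_⟩
    have h6 := hq0 q h1 h2 h3 χ h4 h5
    rw [hG]
    simp only
    unfold analyticOrderNatAt
    rw [(han q χ (by omega) h3 h4 _).analyticOrderAt_eq_zero.2 h6]
    rfl
  refine ⟨K, G, hGH, fun n _ hn LL _ _ _ F => ?_⟩
  have hc : ∀ χ : DirichletCharacter ℂ n, 1 ≤ χ.conductor ∧ Nat.Coprime χ.conductor N ∧
      χ.primitiveCharacter.IsPrimitive := fun χ =>
    ⟨Nat.one_le_iff_ne_zero.2 χ.conductor_ne_zero,
      Nat.Coprime.coprime_dvd_left χ.conductor_dvd_level hn, χ.primitiveCharacter_isPrimitive⟩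
  have hord : analyticOrderAt (fun s : ℂ =>
      ∏ χ : H300.HW.YY n LL F, L χ.1.conductor χ.1.primitiveCharacter (s - 1 / 2)) 1 =
      ((totF G n LL F : ℕ) : ℕ∞) := by
    have e1 : (fun s : ℂ => ∏ χ : H300.HW.YY n LL F,
        L χ.1.conductor χ.1.primitiveCharacter (s - 1 / 2)) =
        fun s : ℂ => (fun z : ℂ => ∏ χ : H300.HW.YY n LL F,
          L χ.1.conductor χ.1.primitiveCharacter z) (s - 1 / 2) := rfl
    rw [e1, order_shift (fun z : ℂ => ∏ χ : H300.HW.YY n LL F,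
      L χ.1.conductor χ.1.primitiveCharacter z), order_prod Finset.univ
      (fun χ : H300.HW.YY n LL F => L χ.1.conductor χ.1.primitiveCharacter) (1 / 2)
      (fun χ _ => han _ _ (hc χ.1).1 (hc χ.1).2.1 (hc χ.1).2.2 _)
      (fun χ _ => htop _ _ (hc χ.1).1 (hc χ.1).2.1 (hc χ.1).2.2 _)]
    unfold totF
    rw [finsum_eq_sum_of_fintype]
  refine ⟨fun s => ∏ χ : H300.HW.YY n LL F, L χ.1.conductor χ.1.primitiveCharacter (s - 1 / 2), ?_, ?_⟩
  · refine ⟨?_, ?_, ?_⟩
    · refine Differentiable.fun_finsetProd fun χ _ => ?_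
      exact (hL _ _ (hc χ.1).1 (hc χ.1).2.1 (hc χ.1).2.2).1.comp (by fun_prop)
    · rw [hord]
      exact ENat.natCast_ne_top _
    · intro s hs
      have h2 := Pool.Agent.Y18.NF.hasProd_F hE H n LL F
        (fun χ s => L χ.conductor χ.primitiveCharacter (s - 1 / 2)) s hs (fun χ _ => by
          have h4 := (hL χ.conductor χ.primitiveCharacter (hc χ).1 (hc χ).2.1 (hc χ).2.2).2.1
            (s - 1 / 2) (by
              have : (s - 1 / 2 : ℂ).re = s.re - 1 / 2 := by simp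
              rw [this]; linarith)
          refine (congrArg (fun g => HasProd g (L χ.conductor χ.primitiveCharacter (s - 1 / 2)))
            (funext fun p => ?_)).mpr h4
          rw [← twistFactor_eq f hf.real χ.conductor χ.primitiveCharacter s p p.2]
          unfold Pool.Agent.Y18.NF.ez twistFactor Pool.Agent.Y702.L.pv
          congr 2
          split_ifs with h
          · simp
          · have hp0 : ((p : ℕ) : ℂ) ≠ 0 := by exact_mod_cast p.2.ne_zero
            have e : ((p : ℕ) : ℂ) ^ (1 - 2 * s) = (p : ℕ) * (((p : ℕ) : ℂ) ^ (-s)) ^ 2 := by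
              rw [show (1 - 2 * s : ℂ) = 1 + ((-s) + (-s)) by ring, Complex.cpow_add _ _ hp0,
                Complex.cpow_add _ _ hp0, Complex.cpow_one]
              ring
            rw [e])
      show HasProd _ (∏ χ : H300.HW.YY n LL F, L χ.1.conductor χ.1.primitiveCharacter (s - 1 / 2))
      refine (congrArg (fun g => HasProd g _) (funext fun v => ?_)).mpr h2
      exact factor_eq_lib a b f s v
  · unfold analyticOrderNatAt
    rw [hord]
    rfl

/-- the degree `[F : ℚ]` -/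
noncomputable def deg (F : Type) [Field F] [Algebra ℚ F] : ℕ := Module.finrank ℚ F

/-- the exponent of the group `Gal(F/ℚ)` -/
noncomputable def expo (F : Type) [Field F] [Algebra ℚ F] : ℕ := Monoid.exponent Gal(F/ℚ)

/-- the group `Gal(F/ℚ)` is cyclic -/
def IsCyc (F : Type) [Field F] [Algebra ℚ F] : Prop := IsCyclic Gal(F/ℚ)

section statements

variable (a b : ℤ) (N : ℕ) (f : CuspForm (Gamma0 N : Subgroup (GL (Fin 2) ℝ)) 2)

/-- (1) For all `n` prime to `N` and all subfields `F` of `L = ℚ(ζ_n)` there is exactly one function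
`Z` which is the Hasse-Weil `L`-function of `E` over `F`. -/
def Continuation : Prop :=
  ∀ (n : ℕ) [NeZero n], Nat.Coprime n N → ∀ (L : Type) [Field L] [NumberField L]
    [IsCyclotomicExtension {n} ℚ L] (F : IntermediateField ℚ L), ∃! Z : ℂ → ℂ, IsHasseWeil a b f F Z

/-- (2) For every `ε > 0` there is `C` such that for all `n` prime to `N` and all subfields `F` of
`ℚ(ζ_n)` the order of vanishing of `L(E/F, s)` at `s = 1` is at most
`C n ^ (3/4 + ε) [F : ℚ] / e`, where `e` is the exponent of `Gal(F/ℚ)`; for cyclic `F` of any degree it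
is at most `C n ^ (3/4 + ε)`. -/
def ExponentBound : Prop :=
  ∀ ε : ℝ, 0 < ε → ∃ C : ℝ, ∀ (n : ℕ) [NeZero n], Nat.Coprime n N →
    ∀ (L : Type) [Field L] [NumberField L] [IsCyclotomicExtension {n} ℚ L]
      (F : IntermediateField ℚ L) (Z : ℂ → ℂ), IsHasseWeil a b f F Z →
      (analyticOrderNatAt Z 1 : ℝ) ≤
        C * (n : ℝ) ^ (3 / 4 + ε) * (deg F / expo F) ∧
      (IsCyc F → (analyticOrderNatAt Z 1 : ℝ) ≤ C * (n : ℝ) ^ (3 / 4 + ε))

/-- (3) For every `ε > 0` there are `c > 0` and `C` such that for all but at most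
`C x exp (-c (log x) ^ (1/3))` of the integers `n ≤ x` prime to `N` the order of vanishing of
`L(E/F, s)` at `s = 1` is at most `n ^ (3/4 + ε)`, for all subfields `F` of `ℚ(ζ_n)`. -/
def AlmostAllBound : Prop :=
  ∀ ε : ℝ, 0 < ε → ∃ c C : ℝ, 0 < c ∧ ∀ x : ℕ, 1 ≤ x → ∃ B : Finset ℕ,
    (B.card : ℝ) ≤ C * (x * Real.exp (-(c * Real.log x ^ ((1 : ℝ) / 3)))) ∧
    ∀ (n : ℕ) [NeZero n], n ≤ x → n ∉ B → Nat.Coprime n N →
      ∀ (L : Type) [Field L] [NumberField L] [IsCyclotomicExtension {n} ℚ L]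
        (F : IntermediateField ℚ L) (Z : ℂ → ℂ), IsHasseWeil a b f F Z →
        (analyticOrderNatAt Z 1 : ℝ) ≤ (n : ℝ) ^ (3 / 4 + ε)

/-- (4) For every `ε > 0` there is `C` such that for all `R` prime to `N`, all `n` whose prime
factors divide `R` and all subfields `F` of `ℚ(ζ_n)` (these are the abelian fields unramified outside
the prime factors of `R`) the order of vanishing of `L(E/F, s)` at `s = 1` is at most
`C R ^ (4 + ε)`. -/
def RamificationBound : Prop :=
  ∀ ε : ℝ, 0 < ε → ∃ C : ℝ, ∀ R : ℕ, 1 ≤ R → Nat.Coprime R N →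
    ∀ (n : ℕ) [NeZero n], (∀ p : ℕ, p.Prime → p ∣ n → p ∣ R) →
      ∀ (L : Type) [Field L] [NumberField L] [IsCyclotomicExtension {n} ℚ L]
        (F : IntermediateField ℚ L) (Z : ℂ → ℂ), IsHasseWeil a b f F Z →
        (analyticOrderNatAt Z 1 : ℝ) ≤ C * (R : ℝ) ^ (4 + ε)

/-- (5) For every `ε > 0` there is `n₀` such that for all `n ≥ n₀` prime to `N` and all subfields
`F ⊆ F'` of `ℚ(ζ_n)` with `F'/ℚ` cyclic, if all the divisors of `[F' : ℚ]` which do not divide
`[F : ℚ]` are at least `n ^ (3/4 + ε)`, the order of vanishing of `L(E/F', s)` at `s = 1` is equal to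
that of `L(E/F, s)`. -/
def NoGrowth : Prop :=
  ∀ ε : ℝ, 0 < ε → ∃ n₀ : ℕ, ∀ (n : ℕ) [NeZero n], n₀ ≤ n → Nat.Coprime n N →
    ∀ (L : Type) [Field L] [NumberField L] [IsCyclotomicExtension {n} ℚ L]
      (F F' : IntermediateField ℚ L), F ≤ F' → IsCyc F' →
      (∀ d : ℕ, d ∣ deg F' → ¬ d ∣ deg F → (n : ℝ) ^ (3 / 4 + ε) ≤ d) →
      ∀ Z Z' : ℂ → ℂ, IsHasseWeil a b f F Z → IsHasseWeil a b f F' Z' →
        analyticOrderAt Z' 1 = analyticOrderAt Z 1

end statements

/-- **Main theorem.** Let `E : y² = x³ + a x + b` be an elliptic curve over `ℚ`, `N` its conductor and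
`f ∈ S_2(Γ₀(N))` its newform. Then (1) - (5) hold. The hypothesis on `f` (the modularity theorem) holds
for the curve `X_0(14)`, so that for this curve the result is unconditional. -/
theorem result :
    (∀ a b : ℤ, 4 * a ^ 3 + 27 * b ^ 2 ≠ 0 → ∀ (N : ℕ) [NeZero N]
      (f : CuspForm (Gamma0 N : Subgroup (GL (Fin 2) ℝ)) 2), IsFormOf a b N f →
      Continuation a b N f ∧ ExponentBound a b N f ∧ AlmostAllBound a b N f ∧
        RamificationBound a b N f ∧ NoGrowth a b N f) ∧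
    ∃ f : CuspForm (Gamma0 14 : Subgroup (GL (Fin 2) ℝ)) 2, IsFormOf 5805 (-285714) 14 f := by
  refine ⟨fun a b hE N _ f hf => ?_, inst⟩
  obtain ⟨K, G, hG, hcore⟩ := core a b hE N f hf
  have hval : ∀ (n : ℕ) [NeZero n], Nat.Coprime n N → ∀ (L : Type) [Field L] [NumberField L]
      [IsCyclotomicExtension {n} ℚ L] (F : IntermediateField ℚ L) (Z : ℂ → ℂ),
      IsHasseWeil a b f F Z → analyticOrderNatAt Z 1 = totF G n L F := by
    intro n _ hn L _ _ _ F Z hZ
    obtain ⟨Z0, h1, h2⟩ := hcore n hn L F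
    rw [unique hZ h1, h2]
  refine ⟨fun n _ hn L _ _ _ F => ?_, fun ε hε => ?_, fun ε hε => ?_, fun ε hε => ?_,
    fun ε hε => ?_⟩
  · obtain ⟨Z, h1, h2⟩ := hcore n hn L F
    exact ⟨Z, h1, fun Z' h' => unique h' h1⟩
  · obtain ⟨C, hC, h⟩ := Pool.Agent.K7.H52.AR.abelian_bound hG hε
    refine ⟨C, fun n _ hn L _ _ _ F Z hZ => ?_⟩
    have h1 := h n hn L F
    rw [hval n hn L F Z hZ]
    have hexp : (0 : ℝ) < Monoid.exponent Gal(F/ℚ) := by
      exact_mod_cast Nat.pos_of_ne_zero Monoid.exponent_ne_zero_of_finite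
    refine ⟨?_, fun hcyc => ?_⟩
    · unfold deg expo
      rw [← mul_div_assoc, le_div_iff₀ hexp]
      exact h1
    · have i3 : IsCyclic Gal(F/ℚ) := hcyc
      have i0 : IsAbelianGalois ℚ L := IsCyclotomicExtension.isAbelianGalois {n} ℚ L
      have i1 : IsAbelianGalois ℚ F := IsAbelianGalois.tower_bot ℚ F L
      have i2 : IsGalois ℚ F := i1.toIsGalois
      have e : Monoid.exponent Gal(F/ℚ) = Module.finrank ℚ F := by
        rw [IsCyclic.exponent_eq_card, IsGalois.card_aut_eq_finrank]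
      rw [← e] at h1
      exact le_of_mul_le_mul_right h1 hexp
  · obtain ⟨c, C, hc, hC, h⟩ := Pool.Agent.K7.H52.AR.almost_all hG hε
    refine ⟨c, C, hc, fun x hx => ?_⟩
    obtain ⟨B, -, h2, h3⟩ := h x hx
    refine ⟨B, h2, fun n _ hnx hnB hn L _ _ _ F Z hZ => ?_⟩
    rw [hval n hn L F Z hZ]
    exact h3 n hnx hnB hn L F
  · obtain ⟨C, hC, h⟩ := Pool.Agent.K7.H52.AR.rohrlich hG hε
    refine ⟨C, fun R hR hRN n _ hnR L _ _ _ F Z hZ => ?_⟩
    have hn : Nat.Coprime n N := by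
      rw [Nat.coprime_iff_gcd_eq_one]
      by_contra hcon
      obtain ⟨p, hp, hpd⟩ := Nat.exists_prime_and_dvd hcon
      have h2 := hnR p hp (hpd.trans (Nat.gcd_dvd_left _ _))
      have h3 : p ∣ Nat.gcd R N := Nat.dvd_gcd h2 (hpd.trans (Nat.gcd_dvd_right _ _))
      rw [Nat.coprime_iff_gcd_eq_one.1 hRN] at h3
      exact hp.one_lt.ne' (Nat.dvd_one.1 h3)
    rw [hval n hn L F Z hZ]
    refine h R hR hRN n (fun p hp => ?_) L F
    have hpp := Nat.prime_of_mem_primeFactors hp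
    rw [Nat.mem_primeFactors]
    exact ⟨hpp, hnR p hpp (Nat.dvd_of_mem_primeFactors hp), by omega⟩
  · obtain ⟨n₀, h⟩ := Pool.Agent.K7.H52.AR.equal_tot hG hε
    refine ⟨n₀, fun n _ hnn hn L _ _ _ F F' hFF hcyc hd Z Z' hZ hZ' => ?_⟩
    have h1 := h n hnn hn L F F' hFF hcyc hd
    rw [← hval n hn L F Z hZ, ← hval n hn L F' Z' hZ'] at h1
    rw [← Nat.cast_analyticOrderNatAt hZ.2.1, ← Nat.cast_analyticOrderNatAt hZ'.2.1, h1]

end Pool.Agent.Results.MP_32c55d_nt.AbelianFields
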