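import Pool.Agent.K7.H13.MQ.Fin

/-!
# The conjecture of Birch and Swinnerton-Dyer over multiquadratic fields ordered by the discriminant

`E : y² = x³ + a x + b` is an elliptic curve over `ℚ` and `K` runs through **all** fields
`K = ℚ(√d_1, …, √d_n)` of degree `2ⁿ ≥ 2` (subfields of `ℂ`), ordered by the absolute value of the
discriminant.  We prove, without any hypothesis, for all `E` with `j`-invariant `0` or `1728` and for all
quadratic twists of `X₀(11)` and `X₀(14)`, and for every elliptic curve over `ℚ` whose quadratic twists are
modular, that `E(K)` is finitely generated, that `L(E/K, s)` is entire of finite order of vanishing at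
`s = 1`, and

`∑_{|disc K| ≤ Y} exp (c (rank E(K) + ord_{s=1} L(E/K, s))) ≤ C Y^{1/2^{n-1}} (log Y)^A`,

and that the `k`-th moment of `rank E(K) + ord_{s=1} L(E/K, s)` over any set `S` of such fields with
`|disc K| ≤ Y` is at most `C (#S + N_n(Y) / (log Y)^B) (1 + log log Y)^k` (every `k` and `B`), where
`N_n(Y)` is the number of all such fields; `N_n(Y) ≥ c Y^{1/2^{n-1}} / log Y` is also proved.  So the
difference of the two sides of the conjecture is `O(log log Y)` on average over the fields of degree `2ⁿ` of
this kind with `|disc K| ≤ Y`, and over every subfamily of at least `N_n(Y) / (log Y)^B` of them; for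
`n = 1` these are all quadratic fields.

Method: the bounds for the quadratic twists over `ℚ` of the starting files hold for boxes
`|d_i| ≤ X` of squarefree integers, but the fields with `|disc K| ≤ Y` correspond to a cusped region of
tuples `(d_1, …, d_n)`, in which only the radical of `d_1 ⋯ d_n` is bounded, by `2 Y^{1/2^{n-1}}`, and the
squarefree part of a partial product `∏_{i ∈ T} d_i` is any divisor of twice this radical.  The sum over
all tuples is rearranged as a sum over this squarefree part `s` and its codivisor, the number of tuples
with radical `r` and given `s` is bounded by a power of the number of divisors, and the second moment of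
the twists up to `2 r` is used for each codivisor (partial summation), with a loss of a power of `log Y`
only.  The lower bound for the discriminant is obtained from Eisenstein elements in quadratic subfields and
the tower formula.
-/

set_option autoImplicit false

namespace Pool.Agent.Results.MP_32c55d_nt.ByDiscriminant

open Pool.Agent.Y19.QT Pool.Agent.K7.H13.MQ Filter

theorem result :
    -- there are finitely many, but many, fields `ℚ(√d_1, …, √d_n)` of degree `2ⁿ` with `|disc K| ≤ Y`
    (∀ n Y : ℕ, (Mq n Y).Finite) ∧
    (∀ n : ℕ, 1 ≤ n → ∃ c : ℝ, 0 < c ∧ ∀ᶠ Y : ℕ in atTop,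
      c * ((Y : ℝ) ^ ((1 : ℝ) / 2 ^ (n - 1)) / Real.log Y) ≤ (Mq n Y).ncard) ∧
    -- the bounds for the ranks and the orders of vanishing
    (∀ a b : ℤ, Fam a b → FieldLaw a b) ∧
    ∀ a b : ℤ, 4 * a ^ 3 + 27 * b ^ 2 ≠ 0 → TwistsModular a b → FieldLaw a b :=
  ⟨Mq_finite, fun _ hn => Mq_lower hn, fun _ _ h => fieldLaw_fam h,
    fun _ _ hab h => fieldLaw_modular hab h⟩

end Pool.Agent.Results.MP_32c55d_nt.ByDiscriminant
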