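import Pool.Agent.K7.H45.CM.Ng
import Pool.Agent.K7.H45.CM.Core2

/-!
# The order of vanishing of `L(E/F, s)` over all abelian extensions `F` of the field `K` of complex
# multiplication

`K` is an imaginary quadratic field of any class number, `F` runs through **all** finite abelian
extensions of `K` (ray class fields, anticyclotomic extensions, ...; in general they are not abelian
over `ℚ`), and `E` is an elliptic curve over `F` whose Hecke character is `ψ ∘ N_{F/K}` for a Hecke
character `ψ` of `K`: every elliptic curve over `K` with complex multiplication by `K`, considered over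
`F`, and, if the class number is larger than one, the elliptic curves over `F` whose torsion points
generate an abelian extension of `K` (Shimura), for instance Gross's curves.

The `L`-function is the `L`-series `WeierstrassCurve.LSeries` of Mathlib, with all Euler factors.
-/

set_option autoImplicit false

open Complex NumberField IsDedekindDomain Polynomial
open scoped IsMulCommutative

namespace Pool.Agent.Results.MP_32c55d_nt.CMAbelianFields

section definitions

variable {K F : Type} [Field K] [NumberField K] [Field F] [NumberField F] [Algebra K F]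

/-- `ψ`, a function on the ideals of `K`, is a Hecke character modulo `f` and of infinity type `(1, 0)`
(with respect to the embedding `σ` of `K` into `ℂ`): it is multiplicative, vanishes exactly at the zero
ideal and the ideals not prime to `f`, and `ψ((α)) = σ(α)` for `α ≡ 1` modulo `f`. -/
structure IsHecke (σ : K →+* ℂ) (f : Ideal (𝓞 K)) (ψ : Ideal (𝓞 K) → ℂ) : Prop where
  ne_bot : f ≠ ⊥
  mul : ∀ I J : Ideal (𝓞 K), ψ (I * J) = ψ I * ψ J
  eq_zero : ∀ I : Ideal (𝓞 K), ψ I = 0 ↔ (I = ⊥ ∨ ¬ IsCoprime I f)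
  principal : ∀ α : 𝓞 K, α ≠ 0 → α - 1 ∈ f → ψ (Ideal.span {α}) = σ α

/-- The order of the finite part `α ↦ ψ((α)) / σ(α)` of `ψ`, a character of `(𝓞 K / f)ˣ`, divides
`d`. -/
def FiniteOrder (σ : K →+* ℂ) (f : Ideal (𝓞 K)) (ψ : Ideal (𝓞 K) → ℂ) (d : ℕ) : Prop :=
  ∀ α : 𝓞 K, α ≠ 0 → IsCoprime (Ideal.span {α}) f → ψ (Ideal.span {α}) ^ d = (σ α) ^ d

/-- `Φ` is the Artin map of `F / K` and `q` is a modulus of `F / K` (a multiple of the conductor): on
the ideals prime to `q` the map `Φ` is a homomorphism onto the Galois group, it is trivial at the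
principal ideals `(α)`, `α ≡ 1` modulo `q`, and if `v` is a prime of `F` above the prime `p ∤ q` of `K`,
then the inertia group of `v` is trivial and `Φ(p)` is the Frobenius automorphism:
`Φ(p) x ≡ x ^ N(p)` modulo `v`.  (By class field theory every `F / K` has such a map.) -/
structure IsArtin (F : Type) [Field F] [NumberField F] [Algebra K F] (q : Ideal (𝓞 K))
    (Φ : Ideal (𝓞 K) → Gal(F/K)) : Prop where
  ne_bot : q ≠ ⊥
  mul : ∀ I J : Ideal (𝓞 K), I ≠ ⊥ → J ≠ ⊥ → IsCoprime I q → IsCoprime J q →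
    Φ (I * J) = Φ I * Φ J
  principal : ∀ α : 𝓞 K, α ≠ 0 → α - 1 ∈ q → Φ (Ideal.span {α}) = 1
  surjective : ∀ g : Gal(F/K), ∃ I : Ideal (𝓞 K), I ≠ ⊥ ∧ IsCoprime I q ∧ Φ I = g
  inertia : ∀ v : HeightOneSpectrum (𝓞 F), IsCoprime (v.asIdeal.under (𝓞 K)) q →
    ∀ g : Gal(F/K), (∀ x : 𝓞 F, g • x - x ∈ v.asIdeal) → g = 1
  frobenius : ∀ v : HeightOneSpectrum (𝓞 F), IsCoprime (v.asIdeal.under (𝓞 K)) q → ∀ x : 𝓞 F,
    Φ (v.asIdeal.under (𝓞 K)) • x - x ^ Ideal.absNorm (v.asIdeal.under (𝓞 K)) ∈ v.asIdeal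

/-- Every residue class of `𝓞 K` modulo `q` contains an integer.  (Equivalently `𝓞 K / q` is a cyclic
group: `q` is a product of powers of primes of degree one above different prime numbers.) -/
def CyclicResidues (q : Ideal (𝓞 K)) : Prop := ∀ x : 𝓞 K, ∃ m : ℤ, x - (m : 𝓞 K) ∈ q

/-- The elliptic curve `E` over `F` has complex multiplication with the Hecke character
`ψ ∘ N_{F/K}`: for all but finitely many primes `v` of `F` the local polynomial
`1 - a_v X + (Nv) X²` of `E` at `v` is `(1 - ψ(N_{F/K} v) X) (1 - conj ψ(N_{F/K} v) X)`. -/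
def IsCM (K : Type) [Field K] [NumberField K] [Algebra K F] (ψ : Ideal (𝓞 K) → ℂ)
    (E : WeierstrassCurve F) : Prop :=
  {v : HeightOneSpectrum (𝓞 F) |
    ((E.baseChange (v.adicCompletion F)).localPolynomial (v.adicCompletionIntegers F)).map
      (Int.castRingHom ℂ) ≠ (1 - C (ψ (Ideal.relNorm (𝓞 K) v.asIdeal)) * X) *
        (1 - C ((starRingEnd ℂ) (ψ (Ideal.relNorm (𝓞 K) v.asIdeal))) * X)}.Finite

/-- The analytic rank of `E` is `r`: the `L`-series of `E`, which converges absolutely for `Re s > 2`,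
has a meromorphic continuation to `ℂ` which is analytic at `s = 1` and has order `r` there. -/
def AnalyticRank (E : WeierstrassCurve F) (r : ℕ) : Prop :=
  ∃ L : ℂ → ℂ, MeromorphicOn L Set.univ ∧
    (∀ s : ℂ, 2 < s.re → LSeriesSummable ((fun n : ℤ => (n : ℂ)) ∘ E.LFunction) s ∧
      L s = E.LSeries s) ∧ AnalyticAt ℂ L 1 ∧ analyticOrderAt L 1 = r

/-- `exp Gal(F/K)` -/
noncomputable def expo (K F : Type) [Field K] [Field F] [Algebra K F] : ℕ :=
  Monoid.exponent Gal(F/K)

end definitions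

section lemmas

variable {K F : Type} [Field K] [NumberField K] [Field F] [NumberField F] [Algebra K F]

/-- the analytic rank is unique -/
theorem AnalyticRank.unique {E : WeierstrassCurve F} {r r' : ℕ} (h : AnalyticRank E r)
    (h' : AnalyticRank E r') : r = r' := by
  obtain ⟨L, hm, hL, ha, ho⟩ := h
  obtain ⟨L', hm', hL', ha', ho'⟩ := h'
  have hg : MeromorphicOn (L - L') Set.univ := fun z hz => (hm z hz).sub (hm' z hz)
  have h2 : meromorphicOrderAt (L - L') 3 = ⊤ := by
    rw [meromorphicOrderAt_eq_top_iff]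
    apply Filter.Eventually.filter_mono nhdsWithin_le_nhds
    have hop : IsOpen {s : ℂ | 2 < s.re} := isOpen_lt continuous_const Complex.continuous_re
    filter_upwards [hop.mem_nhds (show (3 : ℂ) ∈ {s : ℂ | 2 < s.re} by
      show (2 : ℝ) < (3 : ℂ).re
      norm_num)] with z hz
    rw [Pi.sub_apply, (hL z hz).2, (hL' z hz).2, sub_self]
  have h3 : meromorphicOrderAt (L - L') 1 = ⊤ := by
    by_contra h
    exact hg.meromorphicOrderAt_ne_top_of_isPreconnected isPreconnected_univ
      (Set.mem_univ (1 : ℂ)) (Set.mem_univ (3 : ℂ)) h h2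
  rw [(ha.sub ha').meromorphicOrderAt_eq] at h3
  have h4 : analyticOrderAt (L - L') 1 = ⊤ := by
    by_contra h5
    rw [← Nat.cast_analyticOrderNatAt h5] at h3
    simp at h3
  rw [analyticOrderAt_eq_top] at h4
  have h5 : L =ᶠ[nhds 1] L' := h4.mono fun z hz => sub_eq_zero.1 hz
  rw [analyticOrderAt_congr h5] at ho
  exact_mod_cast ho.symm.trans ho'

omit [NumberField K] in
theorem isHecke_iff {σ : K →+* ℂ} {f : Ideal (𝓞 K)} {ψ : Ideal (𝓞 K) → ℂ}
    (h : IsHecke σ f ψ) : Pool.Agent.K7.H45.CM.NH σ f ψ :=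
  ⟨h.ne_bot, h.mul, h.eq_zero, h.principal⟩

theorem isArtin_iff {q : Ideal (𝓞 K)} {Φ : Ideal (𝓞 K) → Gal(F/K)} (h : IsArtin F q Φ) :
    Pool.Agent.K7.H45.CM.FA K F q Φ :=
  ⟨⟨h.ne_bot, h.mul, h.principal, h.surjective⟩, h.inertia, h.frobenius⟩

theorem isCM_fin {ψ : Ideal (𝓞 K) → ℂ} {E : WeierstrassCurve F} (h : IsCM K ψ E) :
    {v : HeightOneSpectrum (𝓞 F) | ¬ ∀ s, Pool.Agent.K7.H45.CM.ef E v s =
      Pool.Agent.K7.H45.CM.gf (Pool.Agent.K7.H45.CM.AA K ψ) v s}.Finite := by
  refine h.subset fun v hv => ?_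
  change ¬ _ at hv
  change _ ≠ _
  intro heq
  apply hv
  intro s
  have h1 := congrArg (Polynomial.eval ((Pool.Agent.H921R2.TatePole.nm v : ℂ) ^ (-s))) heq
  rw [Pool.Agent.W189.NF.localPolynomial_eq] at h1
  simp only [Polynomial.map_add, Polynomial.map_sub, Polynomial.map_one, Polynomial.map_mul,
    Polynomial.map_C, Polynomial.map_X, Polynomial.map_pow, Polynomial.eval_add,
    Polynomial.eval_sub, Polynomial.eval_one, Polynomial.eval_mul, Polynomial.eval_C,
    Polynomial.eval_X, Polynomial.eval_pow, Int.coe_castRingHom] at h1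
  exact h1

end lemmas

/-- **Main theorem.** Let `K` be an imaginary quadratic field and `ε > 0`. There is a constant `C`, which
depends only on `K` and `ε`, with the following properties. Let `ψ` be a Hecke character of `K` modulo
`f` of infinity type `(1, 0)` whose finite part has an order dividing `d`.

(1) Let `F / K` be a finite abelian extension with modulus `q`, and let `E` be an elliptic curve over
`F` with complex multiplication and Hecke character `ψ ∘ N_{F/K}`. Then `L(E/F, s)` has a meromorphic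
continuation to `ℂ` which is analytic at `s = 1`, its order of vanishing `r` at `s = 1` is even, and
`r ≤ C d N(f q) ^ (2/3 + ε) [F : K] / exp(Gal(F/K))`.

(2) Let moreover `q = g q₁`, where `g` and `q₁` are coprime, `𝓞 K / q₁` is a cyclic group and all prime
factors of `N(q₁)` divide `R`. Then `r ≤ C (d R) ^ (3 + ε) N(f g) ^ (2 + ε) N(g)`; this bound is the
same for all these `F`, of arbitrarily large degree.

(3) Let `F' / K` be a finite abelian extension with modulus `q'` which contains `F`, and let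
`E'` be an elliptic curve over `F'` with the Hecke character `ψ ∘ N_{F'/K}` (for instance `E` over
`F'`). If all characters of `Gal(F'/K)` which are not trivial on `Gal(F'/F)` have an order larger than
`C d N(f q') ^ (2/3 + ε)`, then the orders of vanishing of `L(E'/F', s)` and `L(E/F, s)` at `s = 1` are
equal. -/
theorem result {K : Type} [Field K] [NumberField K] (hK : Module.finrank ℚ K = 2) (σ : K →+* ℂ)
    (hσ : ∃ x : K, (σ x).im ≠ 0) (ε : ℝ) (hε : 0 < ε) :
    ∃ C : ℝ, 0 < C ∧ ∀ (f : Ideal (𝓞 K)) (ψ : Ideal (𝓞 K) → ℂ) (d : ℕ), IsHecke σ f ψ → 1 ≤ d →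
      FiniteOrder σ f ψ d →
      ∀ (F : Type) [Field F] [NumberField F] [Algebra K F] [IsAbelianGalois K F]
        (q : Ideal (𝓞 K)) (Φ : Ideal (𝓞 K) → Gal(F/K)), IsArtin F q Φ →
      ∀ E : WeierstrassCurve F, IsCM K ψ E →
        (∃ r : ℕ, AnalyticRank E r ∧ Even r ∧
          (r : ℝ) * expo K F ≤
            C * d * (Ideal.absNorm (f * q) : ℝ) ^ (2 / 3 + ε) * Module.finrank K F ∧
          ∀ g q₁ : Ideal (𝓞 K), q = g * q₁ → IsCoprime g q₁ → CyclicResidues q₁ →
            ∀ R : ℕ, 1 ≤ R → (∀ p : ℕ, p.Prime → p ∣ Ideal.absNorm q₁ → p ∣ R) →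
              (r : ℝ) ≤ C * (d * R) ^ (3 + ε) * (Ideal.absNorm (f * g) : ℝ) ^ (2 + ε) *
                Ideal.absNorm g) ∧
        ∀ (F' : Type) [Field F'] [NumberField F'] [Algebra K F'] [Algebra F F']
          [IsScalarTower K F F'] [IsAbelianGalois K F'] (q' : Ideal (𝓞 K))
          (Φ' : Ideal (𝓞 K) → Gal(F'/K)), IsArtin F' q' Φ' →
        ∀ E' : WeierstrassCurve F', IsCM K ψ E' →
          (∀ χ : Gal(F'/K) →* ℂˣ, (∃ g : Gal(F'/K),
            (AlgEquiv.restrictNormalHom F g : Gal(F/K)) = 1 ∧ χ g ≠ 1) →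
              C * d * (Ideal.absNorm (f * q') : ℝ) ^ (2 / 3 + ε) < orderOf χ) →
          ∀ r r' : ℕ, AnalyticRank E r → AnalyticRank E' r' → r' = r := by
  classical
  obtain ⟨C, C', hC, hC', h⟩ := Pool.Agent.K7.H45.CM.core2 hK hσ (σ := σ) hε
  refine ⟨2 * (C + C'), by positivity, fun f ψ d hψ hd1 hd F _ _ _ _ q Φ hΦ E hE => ?_⟩
  have hψ' := isHecke_iff hψ
  have hΦ' := isArtin_iff hΦ
  have hG : Finite (Gal(F/K) →* ℂˣ) := inferInstance
  let _ : Fintype (Gal(F/K) →* ℂˣ) := Fintype.ofFinite _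
  obtain ⟨L, hL, hLs⟩ := h f ψ d hψ' hd1 hd Gal(F/K) q Φ hΦ'.na
  have h1 := Pool.Agent.K7.H45.CM.conts_main hψ' hΦ' hL E (isCM_fin hE)
  obtain ⟨hd2, ho⟩ := Pool.Agent.K7.H45.CM.zz_order hL.diff hL.ord
  have hr : AnalyticRank E (2 * ∑ χ, analyticOrderNatAt (L χ) 1) := by
    obtain ⟨L1, k1, k2, k3, k4⟩ := h1
    exact ⟨L1, k1, k2, k3, k4.trans ho⟩
  refine ⟨⟨_, hr, even_two_mul _, ?_, fun g q₁ he hco hq R hR hRq => ?_⟩,
    fun F' _ _ _ _ _ _ q' Φ' hA E' hE' hbig r r' hr1 hr2 => ?_⟩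
  · have h2 := hL.tot
    have h3 : Nat.card Gal(F/K) = Module.finrank K F := IsGalois.card_aut_eq_finrank K F
    rw [h3] at h2
    unfold expo
    push_cast at h2 ⊢
    calc _ = 2 * ((∑ χ, (analyticOrderNatAt (L χ) 1 : ℝ)) * (Monoid.exponent Gal(F/K) : ℝ)) := by
          ring
      _ ≤ 2 * (C * d * (Ideal.absNorm (f * q) : ℝ) ^ (2 / 3 + ε) * Module.finrank K F) :=
          mul_le_mul_of_nonneg_left h2 (by norm_num)
      _ ≤ 2 * ((C + C') * d * (Ideal.absNorm (f * q) : ℝ) ^ (2 / 3 + ε) *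
            Module.finrank K F) := by
          gcongr
          linarith
      _ = _ := by ring
  · have h2 := hLs g q₁ he hco hq R hR (fun p hp => by
      rw [Nat.mem_primeFactors] at hp ⊢
      exact ⟨hp.1, hRq p hp.1 hp.2.1, by omega⟩)
    push_cast at h2 ⊢
    calc (2 : ℝ) * ∑ χ, (analyticOrderNatAt (L χ) 1 : ℝ) ≤
        2 * (C' * ((d : ℝ) * R) ^ (3 + ε) * (Ideal.absNorm (f * g) : ℝ) ^ (2 + ε) *
          Ideal.absNorm g) := mul_le_mul_of_nonneg_left h2 (by norm_num)
      _ ≤ 2 * ((C + C') * ((d : ℝ) * R) ^ (3 + ε) * (Ideal.absNorm (f * g) : ℝ) ^ (2 + ε) *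
            Ideal.absNorm g) := by
          gcongr
          linarith
      _ = _ := by ring
  · have hA' := isArtin_iff hA
    have hG' : Finite (Gal(F'/K) →* ℂˣ) := inferInstance
    let _ : Fintype (Gal(F'/K) →* ℂˣ) := Fintype.ofFinite _
    obtain ⟨L', hL', -⟩ := h f ψ d hψ' hd1 hd Gal(F'/K) q' Φ' hA'.na
    have h2 := Pool.Agent.K7.H45.CM.conts_main hψ' hA' hL' E' (isCM_fin hE')
    obtain ⟨-, ho'⟩ := Pool.Agent.K7.H45.CM.zz_order hL'.diff hL'.ord
    have hr' : AnalyticRank E' (2 * ∑ χ, analyticOrderNatAt (L' χ) 1) := by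
      obtain ⟨L1, k1, k2, k3, k4⟩ := h2
      exact ⟨L1, k1, k2, k3, k4.trans ho'⟩
    have h3 := Pool.Agent.K7.H45.CM.no_growth hψ' hΦ' hA' hL hL' (fun χ hχ => by
      have h4 := hbig χ hχ
      refine lt_of_le_of_lt ?_ h4
      have h5 : 0 ≤ C * d * (Ideal.absNorm (f * q') : ℝ) ^ (2 / 3 + ε) := by positivity
      have h6 : 0 ≤ C' * d * (Ideal.absNorm (f * q') : ℝ) ^ (2 / 3 + ε) := by positivity
      linarith)
    rw [hr1.unique hr, hr2.unique hr', h3]

end Pool.Agent.Results.MP_32c55d_nt.CMAbelianFields
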