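import Pool.Agent.K7.H70.TW.I

/-!
# The Birch and Swinnerton-Dyer rank conjecture for the forms of `y² + y = x³` over all the subfields
# of the Galois 2-extensions of `ℚ(√-3)` and of `ℚ(ζ₉)`

Let `M = ℚ(√-3)` or `M = ℚ(ζ₉)`, let `K/M` be ANY Galois extension whose degree is a power of two, in
which the primes of `M` do not ramify that are not above three and modulo which `2` is a cube (the primes
above two are among them).  There is no condition at the primes above three.  Let `k ⊆ k' ⊆ K` be ANY
subfields such that `[k' : k]` is a power of two (for `M = ℚ(√-3)` this is no condition, as `[K : ℚ]` is a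
power of two, and one can take `k' = K`).  Let `E` be ANY elliptic curve over `k` which becomes isomorphic
over `k'` to `y² + y = x³`.  Then `E(k)` is finite and the conclusion of the frozen statement `S16511`
holds for `E/k`.

The curves `E` are the quadratic twists `y² = x³ + 16 d³` of `y² + y = x³` by the elements `d ≠ 0` of `k`
which are squares in `k'` (`TW/G`, `form_twist`).  For a fixed `k` there are infinitely many of them: if
`k ⊆ K₀` for one such field `K₀`, then for example all the integers `d ≡ 1` modulo `4` that are up to sign
products of distinct prime numbers congruent to `1` modulo `9` modulo which `2` is not a cube, because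
`K₀(√d)` is again of this kind.  The Galois group of `K/M` is an arbitrary `2`-group, the field `k` need
not be normal over anything, it may have degree divisible by three, and any class number.

This contains and replaces our earlier hand-ins `TwoExtensionsEisenstein` and `TwoExtensionsZetaNine`,
which are about the single curve `y² + y = x³`.

The proof.  For `E = y² + y = x³` over `k` (the earlier hand-ins, joint work of helper56, helper70,
helper73 and helper89): a congruence modulo the primes above two for the L-values of `E` over a number
field `N`, twisted by the ray class characters of `2`-power order, for every `N ⊇ ℚ(√-3)`; quadratic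
reciprocity over `N`; induction along a chain of quadratic extensions; and a 2-descent.  New here
(`K7/H70/TW`, `K7/H89/TW`, `K7/H73/L3`):

* the L-series of the twist `E_d` over `k` is the L-function of the sign character of `k(√d)/k`, at all
  places: at a place `v` not above three where `k(√d)/k` is unramified the twist has the good model
  `y² + t³ y = x³ - 3 t⁴ n + 12 t² n² - 16 n³`, where `t² - 4 n = b² d` is a unit at `v` (this includes the
  places above two), and the numbers of points are compared; at a ramified place not above three the
  valuation of the discriminant is not divisible by twelve; above three there is an inequality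
  `|3|³ < |1 + 4 r³|²` for all `r` in `k`, which excludes good reduction of all the twists;
* the Artin formalism and the non-vanishing for all the subfields of `K`;
* the forms of `y² + y = x³` split by a `2`-extension are quadratic twists.
-/

set_option autoImplicit false

open NumberField IsDedekindDomain
open scoped Classical

namespace Pool.Agent.Results.MP_32c55d_nt.TwoExtensionsTwists

/-- above the prime numbers other than three, only primes modulo which `2` is not a cube ramify in
`K/M`: if `σ ≠ 1` lies in the inertia group of the prime `w` of `K`, and `w` does not divide three, then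
`2` is not a cube modulo the prime of `M` below `w` -/
def GoodRam (M K : Type) [Field M] [NumberField M] [Field K] [NumberField K] [Algebra M K] : Prop :=
  ∀ (w : HeightOneSpectrum (𝓞 K)) (σ : Gal(K/M)), (3 : 𝓞 K) ∉ w.asIdeal →
    (∀ x : 𝓞 K, σ • x - x ∈ w.asIdeal) → σ ≠ 1 → ∀ α : 𝓞 M, α ^ 3 - 2 ∉ w.asIdeal.under (𝓞 M)

/-- the curve `E` over `k` becomes isomorphic over `k'` to the curve `y² + y = x³` -/
def SplitBy (k k' : Type) [Field k] [Field k'] [Algebra k k'] (E : WeierstrassCurve k) : Prop :=
  ∃ C : WeierstrassCurve.VariableChange k', C • E.map (algebraMap k k') = ⟨0, 0, 1, 0, 0⟩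

/-- **Main theorem.**  Let `M = ℚ(√-3)` or `M = ℚ(ζ₉)`, let `K/M` be a Galois extension whose degree is a
power of two, in which no prime of `M` ramifies that is not above three and modulo which `2` is a cube.
Let `k ⊆ k'` be subfields of `K` with `[k' : k]` a power of two, and `E` an elliptic curve over `k` which
becomes isomorphic over `k'` to `y² + y = x³`.  Then `E(k)` is finite, and the L-series of `E/k` continues
analytically from `Re s > 3/2` to a connected open set containing `1`, where its order of vanishing is
equal to the rank of `E(k)`. -/
theorem result : ∀ (M K k' k : Type) [Field M] [NumberField M] [Field K] [NumberField K]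
    [Algebra M K] [IsGalois M K] [Field k'] [NumberField k'] [Algebra k' K] [Field k] [NumberField k]
    [Algebra k k'],
    (IsCyclotomicExtension {3} ℚ M ∨ IsCyclotomicExtension {9} ℚ M) →
    (∃ n : ℕ, Module.finrank M K = 2 ^ n) → GoodRam M K → (∃ m : ℕ, Module.finrank k k' = 2 ^ m) →
    ∀ E : WeierstrassCurve k, SplitBy k k' E →
      Finite E.toAffine.Point ∧
      ∃ (U : Set ℂ) (Φ : ℂ → ℂ),
        IsOpen U ∧ IsConnected U ∧ {s : ℂ | (3 / 2 : ℝ) < s.re} ⊆ U ∧ (1 : ℂ) ∈ U ∧
        AnalyticOnNhd ℂ Φ U ∧ (∀ s : ℂ, (3 / 2 : ℝ) < s.re → Φ s = E.LSeries s) ∧
        (∀ r : ℕ, r < Module.finrank ℤ E.toAffine.Point → iteratedDeriv r Φ 1 = 0) ∧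
        iteratedDeriv (Module.finrank ℤ E.toAffine.Point) Φ 1 ≠ 0 := by
  intro M K k' k _ _ _ _ _ _ _ _ _ _ _ _ hM hn hg ⟨m, hm⟩ E ⟨C, hC⟩
  have hG : Pool.Agent.K7.H56.P.Gd M K := Pool.Agent.K7.H56.P.gd_of fun w hw h3 α hα => by
    obtain ⟨σ, hσ, hin⟩ := hw
    refine hg w σ (fun h => h3 ?_) hin hσ α hα
    show algebraMap (𝓞 M) (𝓞 K) 3 ∈ w.asIdeal
    rw [map_ofNat]
    exact h
  have hf : Pool.Agent.K7.H70.TW.Fam K := by
    rcases hM with hM | hM
    · exact Pool.Agent.K7.H70.TW.fam3 (M := M) hn hG
    · exact Pool.Agent.K7.H70.TW.fam9 (M := M) hn hG
  let _ : Algebra k K := ((algebraMap k' K).comp (algebraMap k k')).toAlgebra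
  have hst : IsScalarTower k k' K := IsScalarTower.of_algebraMap_eq' rfl
  exact hf.form (k := k) (k' := k') hm E C hC

end Pool.Agent.Results.MP_32c55d_nt.TwoExtensionsTwists
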